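import Pool.Agent.TH255.PS.Dh

/-!
# Natural numbers without prime factors congruent to `1` modulo `4` form a decidable set
-/

set_option autoImplicit false

namespace Pool.Agent.TH255.PS

theorem nop_re : REPred (NoP {p | p % 4 = 1}) := by
  have hdvd : PrimrecRel (fun a b : ℕ => a ∣ b) := by
    refine PrimrecPred.of_eq (Primrec.eq.comp (Primrec.nat_mod.comp Primrec.snd Primrec.fst)
      (Primrec.const 0)) fun p => ?_
    exact (Nat.dvd_iff_mod_eq_zero).symm
  have hprime : PrimrecPred (fun p : ℕ => p.Prime) := by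
    have h1 : PrimrecRel (fun d p : ℕ => ¬ (2 ≤ d ∧ d ∣ p)) :=
      PrimrecRel.not (PrimrecPred.and (Primrec.nat_le.comp (Primrec.const 2) Primrec.fst) hdvd)
    have h2 : PrimrecPred (fun p : ℕ => 2 ≤ p ∧ ∀ d < p, ¬ (2 ≤ d ∧ d ∣ p)) :=
      PrimrecPred.and (Primrec.nat_le.comp (Primrec.const 2) Primrec.id)
        (h1.forall_lt.comp Primrec.id Primrec.id)
    refine h2.of_eq fun p => ?_
    rw [Nat.prime_def_lt]
    constructor
    · rintro ⟨h3, h4⟩
      refine ⟨h3, fun m hm hd => ?_⟩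
      have h5 := h4 m hm
      have h6 : m ≠ 0 := by
        rintro rfl
        have := Nat.eq_zero_of_zero_dvd hd
        omega
      by_contra h7
      exact h5 ⟨by omega, hd⟩
    · rintro ⟨h3, h4⟩
      exact ⟨h3, fun d hd h => by
        have := h4 d hd h.2
        omega⟩
  have h1 : PrimrecRel (fun p m : ℕ => ¬ (p % 4 = 1 ∧ p.Prime ∧ p ∣ m)) := by
    refine PrimrecRel.not (PrimrecPred.and ?_ (PrimrecPred.and ?_ hdvd))
    · exact Primrec.eq.comp (Primrec.nat_mod.comp Primrec.fst (Primrec.const 4)) (Primrec.const 1)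
    · exact hprime.comp Primrec.fst
  have h2 : PrimrecPred (fun m : ℕ => ¬ (m = 0) ∧ ∀ p < m + 1, ¬ (p % 4 = 1 ∧ p.Prime ∧ p ∣ m)) :=
    PrimrecPred.and (PrimrecPred.not (Primrec.eq.comp Primrec.id (Primrec.const 0)))
      (h1.forall_lt.comp Primrec.succ Primrec.id)
  refine REPred.of_eq (ComputablePred.to_re h2.computablePred) fun m => ?_
  unfold NoP
  constructor
  · rintro ⟨h3, h4⟩
    refine ⟨h3, fun p hpQ hp hd => ?_⟩
    exact h4 p (Nat.lt_succ_of_le (Nat.le_of_dvd (Nat.pos_of_ne_zero h3) hd)) ⟨hpQ, hp, hd⟩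
  · rintro ⟨h3, h4⟩
    exact ⟨h3, fun p _ h => h4 p h.1 h.2.1 h.2.2⟩

end Pool.Agent.TH255.PS
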