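import Pool.Agent.TH255.HC.Main

/-!
# Diophantine relations between positive integers, and the pole relation over the rationals
-/

set_option autoImplicit false

namespace Pool.Agent.TH255.HC

open MvPolynomial

variable {C : Tol}

/-- substituting polynomial functions for the variables -/
theorem DH.subst {P : (ℚ → ℚ → Prop) → (ℕ → ℚ) → Prop} (h : DH C P) (N : ℕ)
    (hP : ∀ R w w', (∀ i < N, w i = w' i) → P R w → P R w') {r : ℕ → (ℕ → ℚ) → ℚ}
    (hr : ∀ i, PF (r i)) : DH C (fun R v => P R (fun i => r i v)) := by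
  have h' : DH C (fun R v => ∃ u : ℕ → ℚ, (∀ i ∈ List.range N, u i = r i v) ∧ P R u) := by
    refine DH.exs ?_
    exact (DH.list _ fun i => DH.eq (PF.od i) (hr i).ev).and (h.ren (fun n => 2 * n + 1))
  refine h'.congr fun R _ v => ?_
  constructor
  · intro hp
    exact ⟨fun i => r i v, fun _ _ => rfl, hp⟩
  · rintro ⟨u, hu, hp⟩
    exact hP R _ _ (fun i hi => hu i (List.mem_range.2 hi)) hp

/-- the value is a positive integer -/
theorem dhp {f : (ℕ → ℚ) → ℚ} (hf : PF f) : DH C (fun _ v => ∃ n : ℕ, n ≠ 0 ∧ f v = n) :=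
  (dh_pos 0).subst 1 (fun R w w' h => by rw [h 0 (by norm_num)]; exact id) (r := fun _ => f)
    (fun _ => hf)

/-- the value is an integer -/
theorem dhz {f : (ℕ → ℚ) → ℚ} (hf : PF f) : DH C (fun _ v => ∃ z : ℤ, f v = z) :=
  (dh_int).subst 1 (fun R w w' h => by rw [h 0 (by norm_num)]; exact id) (r := fun _ => f)
    (fun _ => hf)

/-- the value lies in a recursively enumerable set -/
theorem dhre {W : ℕ → Prop} (hW : REPred W) {f : (ℕ → ℚ) → ℚ} (hf : PF f) :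
    DH C (fun _ v => ∃ a : ℕ, f v = a ∧ W a) :=
  (dh_re hW).subst 1 (fun R w w' h => by rw [h 0 (by norm_num)]; exact id) (r := fun _ => f)
    (fun _ => hf)

/-- a Diophantine relation between the values -/
theorem dhv {m : ℕ} {S : Set (Fin m → ℕ)} (hS : Dioph S) {f : Fin m → (ℕ → ℚ) → ℚ}
    (hf : ∀ i, PF (f i)) :
    DH C (fun _ v => ∃ a : Fin m → ℕ, (∀ i, a i ≠ 0 ∧ f i v = a i) ∧ a ∈ S) := by
  have h : DH C (fun _ v => ∃ u : ℕ → ℚ,
      (∀ i ∈ List.finRange m, ∃ n : ℕ, n ≠ 0 ∧ f i v = n ∧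
        Cd (u (2 * (i : ℕ))) (u (2 * (i : ℕ) + 1)) n) ∧
      ∃ a : Fin m → ℕ, (∀ i : Fin m, Co u i (a i)) ∧ a ∈ S) := by
    refine DH.exs ?_
    refine DH.and (DH.list _ fun i => ?_) ((dh_dioph hS).ren (fun k => 2 * k + 1))
    refine (dh_link C).subst 3 (fun R w w' h => ?_)
      (r := fun k v => if k = 0 then f i (fun n => v (2 * n)) else
        if k = 1 then v (2 * (2 * (i : ℕ)) + 1) else v (2 * (2 * (i : ℕ) + 1) + 1)) (fun k => ?_)
    · rw [h 0 (by norm_num), h 1 (by norm_num), h 2 (by norm_num)]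
      exact id
    · by_cases h0 : k = 0
      · simp only [h0, if_true]
        exact (hf i).ev
      · by_cases h1 : k = 1
        · simp only [h1, if_true, one_ne_zero, if_false]
          exact PF.var _
        · simp only [h0, h1, if_false]
          exact PF.var _
  refine h.congr fun _ _ v => ?_
  constructor
  · rintro ⟨a, ha, hS⟩
    refine ⟨enc (fun i => if h : i < m then ((a ⟨i, h⟩ : ℕ) : ℤ) else 0), fun i _ => ?_, a,
      fun i => ?_, hS⟩
    · refine ⟨a i, (ha i).1, (ha i).2, ?_⟩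
      have := enc_co (fun i => if h : i < m then ((a ⟨i, h⟩ : ℕ) : ℤ) else 0) (i : ℕ)
      simp only [i.2, dif_pos] at this
      exact this
    · have := enc_co (fun i => if h : i < m then ((a ⟨i, h⟩ : ℕ) : ℤ) else 0) (i : ℕ)
      simp only [i.2, dif_pos] at this
      exact this
  · rintro ⟨u, hu, a, ha, hS⟩
    refine ⟨a, fun i => ?_, hS⟩
    obtain ⟨n, hn0, hn, hc⟩ := hu i (List.mem_finRange i)
    have h4 : (n : ℤ) = a i := Cd.inj hc (ha i)
    have h5 : n = a i := by exact_mod_cast h4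
    rw [hn, ← h5]
    exact ⟨hn0, rfl⟩

end Pool.Agent.TH255.HC

namespace Pool.Agent.TH255.PS

open Pool.Agent.TH255.HC

/-- every prime number in `Q` which divides the denominator of `a` divides that of `b` -/
def PoleQ (Q : Set ℕ) (a b : ℚ) : Prop := ∀ p : ℕ, p.Prime → p ∈ Q → p ∣ a.den → p ∣ b.den

/-- the number `m` has no prime divisor in `Q` -/
def NoP (Q : Set ℕ) (m : ℕ) : Prop := m ≠ 0 ∧ ∀ p ∈ Q, p.Prime → ¬ p ∣ m

/-- splitting off the prime factors in `Q` -/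
lemma split_nat (Q : Set ℕ) (k : ℕ) : k ≠ 0 → ∃ m m' : ℕ, k = m * m' ∧ NoP Q m ∧
    ∀ p : ℕ, p.Prime → p ∣ m' → p ∈ Q := by
  induction k using induction_on_primes with
  | zero => exact fun h => absurd rfl h
  | one =>
    intro _
    refine ⟨1, 1, rfl, ⟨one_ne_zero, fun p _ hp h => hp.one_lt.ne' (Nat.dvd_one.mp h)⟩,
      fun p hp h => absurd (Nat.dvd_one.mp h) hp.one_lt.ne'⟩
  | prime_mul p a hp ih =>
    intro hpa
    have ha : a ≠ 0 := fun h => hpa (by rw [h, mul_zero])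
    obtain ⟨m, m', h1, ⟨h2, h3⟩, h4⟩ := ih ha
    by_cases hQ : p ∈ Q
    · refine ⟨m, p * m', by rw [h1]; ring, ⟨h2, h3⟩, fun q hq hd => ?_⟩
      rcases (Nat.Prime.dvd_mul hq).mp hd with h | h
      · rw [(Nat.prime_dvd_prime_iff_eq hq hp).mp h]
        exact hQ
      · exact h4 q hq h
    · refine ⟨p * m, m', by rw [h1]; ring, ⟨mul_ne_zero hp.ne_zero h2, fun q hqQ hq hd => ?_⟩, h4⟩
      rcases (Nat.Prime.dvd_mul hq).mp hd with h | h
      · rw [(Nat.prime_dvd_prime_iff_eq hq hp).mp h] at hqQ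
        exact hQ hqQ
      · exact h3 q hqQ hq h

/-- a number all of whose prime factors divide `d` divides a power of `d` -/
lemma dvd_pow_of_primes (m : ℕ) : m ≠ 0 → ∀ d : ℕ, (∀ p : ℕ, p.Prime → p ∣ m → p ∣ d) →
    ∃ N : ℕ, N ≠ 0 ∧ m ∣ d ^ N := by
  induction m using induction_on_primes with
  | zero => exact fun h => absurd rfl h
  | one => exact fun _ d _ => ⟨1, one_ne_zero, one_dvd _⟩
  | prime_mul p a hp ih =>
    intro hpa d hd
    have ha : a ≠ 0 := fun h => hpa (by rw [h, mul_zero])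
    obtain ⟨N, hN, h1⟩ := ih ha d fun q hq hqa => hd q hq (Dvd.dvd.mul_left hqa p)
    refine ⟨N + 1, Nat.succ_ne_zero N, ?_⟩
    rw [pow_succ, mul_comm (d ^ N)]
    exact mul_dvd_mul (hd p hp (dvd_mul_right p a)) h1

/-- `x n` is an integer iff the denominator of `x` divides `n` -/
lemma den_dvd_iff (x : ℚ) (n : ℕ) : x.den ∣ n ↔ ∃ z : ℤ, x * n = z := by
  constructor
  · rintro ⟨k, rfl⟩
    refine ⟨x.num * k, ?_⟩
    push_cast
    rw [← mul_assoc, Rat.mul_den_eq_num]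
  · rintro ⟨z, hz⟩
    have h1 : (x.den : ℤ) ∣ x.num * n := by
      refine ⟨z, ?_⟩
      have h2 : (x.num : ℚ) * n = x.den * z := by
        rw [← hz, ← Rat.mul_den_eq_num x]
        ring
      exact_mod_cast h2
    have h3 : IsCoprime (x.den : ℤ) x.num := by
      rw [Int.isCoprime_iff_gcd_eq_one, Int.gcd_comm]
      exact x.reduced
    exact Int.natCast_dvd_natCast.mp (h3.dvd_of_dvd_mul_left h1)

theorem pole_iff (Q : Set ℕ) (a b : ℚ) : PoleQ Q a b ↔
    ∃ (β u w c : ℤ) (γ N m y : ℕ), (γ ≠ 0 ∧ N ≠ 0 ∧ y ≠ 0 ∧ y = γ ^ N) ∧ (b * γ = β ∧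
      u * β + w * γ = 1) ∧ NoP Q m ∧ m * a * y = c := by
  constructor
  · intro hP
    obtain ⟨m, m', hm, hm1, hm2⟩ := split_nat Q a.den a.den_ne_zero
    have hm'0 : m' ≠ 0 := by
      rintro rfl
      rw [mul_zero] at hm
      exact a.den_ne_zero hm
    obtain ⟨N, hN, hd⟩ := dvd_pow_of_primes m' hm'0 b.den fun p hp hpm =>
      hP p hp (hm2 p hp hpm) (by rw [hm]; exact Dvd.dvd.mul_left hpm m)
    obtain ⟨u, w, huw⟩ : IsCoprime b.num (b.den : ℤ) := by
      rw [Int.isCoprime_iff_gcd_eq_one]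
      exact b.reduced
    have h1 : a.den ∣ m * b.den ^ N := by
      rw [hm]
      exact mul_dvd_mul_left m hd
    obtain ⟨c, hc⟩ := (den_dvd_iff a _).mp h1
    refine ⟨b.num, u, w, c, b.den, N, m, b.den ^ N, ⟨b.den_ne_zero, hN,
      pow_ne_zero _ b.den_ne_zero, rfl⟩, ⟨Rat.mul_den_eq_num b, huw⟩, hm1, ?_⟩
    rw [← hc]
    push_cast
    ring
  · rintro ⟨β, u, w, c, γ, N, m, y, ⟨hγ, hN, hy, rfl⟩, ⟨hb, huw⟩, ⟨hm0, hm⟩, hc⟩ p hp hQ hpa
    have h1 : a.den ∣ m * γ ^ N := by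
      rw [den_dvd_iff]
      refine ⟨c, ?_⟩
      rw [← hc]
      push_cast
      ring
    have h2 : p ∣ γ := by
      have h3 := hpa.trans h1
      rcases (Nat.Prime.dvd_mul hp).mp h3 with h | h
      · exact absurd h (hm p hQ hp)
      · exact hp.dvd_of_dvd_pow h
    by_contra hpb
    -- `p` divides `γ` but not the denominator of `b`, so it divides `β`
    have h3 : (b.num : ℤ) * γ = β * b.den := by
      have : (b.num : ℚ) * γ = β * b.den := by
        rw [← hb, ← Rat.mul_den_eq_num b]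
        ring
      exact_mod_cast this
    have hpZ : Prime (p : ℤ) := Nat.prime_iff_prime_int.mp hp
    have h4 : (p : ℤ) ∣ β * b.den := by
      rw [← h3]
      exact Dvd.dvd.mul_left (Int.natCast_dvd_natCast.mpr h2) _
    have h5 : (p : ℤ) ∣ β := by
      rcases hpZ.dvd_or_dvd h4 with h | h
      · exact h
      · exact absurd (Int.natCast_dvd_natCast.mp h) hpb
    have h6 : (p : ℤ) ∣ 1 := by
      rw [← huw]
      exact dvd_add (Dvd.dvd.mul_left h5 u) (Dvd.dvd.mul_left (Int.natCast_dvd_natCast.mpr h2) w)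
    exact hpZ.not_unit (isUnit_of_dvd_one h6)

lemma pw_dioph : Dioph {a : Fin 3 → ℕ | a 2 = a 0 ^ a 1} := by
  have p : ∀ i : Fin 3, Dioph.DiophFn (fun a : Fin 3 → ℕ => a i) := fun i => Dioph.proj_dioph i
  exact Dioph.eq_dioph (p 2) (Dioph.pow_dioph (p 0) (p 1))

/-- the pole relation -/
theorem dh_pole {C : Tol} {Q : Set ℕ} (hQ : REPred (NoP Q)) :
    DH C (fun _ v => PoleQ Q (v 0) (v 1)) := by
  -- variables: β, u, w, c, γ, N, m, y
  have H : DH C (fun _ v => ∃ x : ℕ → ℚ,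
      ((∃ z : ℤ, x 0 = z) ∧ (∃ z : ℤ, x 1 = z) ∧ (∃ z : ℤ, x 2 = z) ∧ (∃ z : ℤ, x 3 = z)) ∧
      (∃ m : ℕ, x 6 = m ∧ NoP Q m) ∧
      (∃ a : Fin 3 → ℕ, (∀ i : Fin 3, a i ≠ 0 ∧ (![x 4, x 5, x 7] : Fin 3 → ℚ) i = a i) ∧
        a ∈ {a : Fin 3 → ℕ | a 2 = a 0 ^ a 1}) ∧
      v 1 * x 4 = x 0 ∧ x 1 * x 0 + x 2 * x 4 = 1 ∧ x 6 * v 0 * x 7 = x 3) := by
    refine DH.exs ?_
    refine ((dhz (PF.od 0)).and ((dhz (PF.od 1)).and ((dhz (PF.od 2)).and
      (dhz (PF.od 3))))).and ?_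
    refine (dhre hQ (PF.od 6)).and ?_
    refine (dhv pw_dioph (f := fun i v => (![v (2 * 4 + 1), v (2 * 5 + 1), v (2 * 7 + 1)] :
      Fin 3 → ℚ) i) ?_).and ?_
    · intro i
      fin_cases i
      · exact PF.var _
      · exact PF.var _
      · exact PF.var _
    refine (DH.eq ((PF.var (2 * 1)).mul (PF.od 4)) (PF.od 0)).and ?_
    refine (DH.eq (((PF.od 1).mul (PF.od 0)).add ((PF.od 2).mul (PF.od 4))) PF.one).and ?_
    exact DH.eq (((PF.od 6).mul (PF.var (2 * 0))).mul (PF.od 7)) (PF.od 3)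
  refine H.congr fun _ _ v => ?_
  rw [pole_iff]
  constructor
  · rintro ⟨β, u, w, c, γ, N, m, y, ⟨hγ, hN, hy, hyy⟩, ⟨hb, huw⟩, hm, hc⟩
    refine ⟨fun k => if k = 0 then (β : ℚ) else if k = 1 then (u : ℚ) else if k = 2 then (w : ℚ)
      else if k = 3 then (c : ℚ) else if k = 4 then (γ : ℚ) else if k = 5 then (N : ℚ) else
      if k = 6 then (m : ℚ) else (y : ℚ), ⟨⟨β, by simp⟩, ⟨u, by simp⟩, ⟨w, by simp⟩, ⟨c, by simp⟩⟩,
      ⟨m, by simp, hm⟩, ⟨![γ, N, y], ?_, ?_⟩, ?_, ?_, ?_⟩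
    · intro i
      fin_cases i
      · exact ⟨hγ, by simp⟩
      · exact ⟨hN, by simp⟩
      · exact ⟨hy, by simp⟩
    · exact hyy
    · simpa using hb
    · have h1 : (u : ℚ) * β + w * γ = 1 := by exact_mod_cast huw
      simpa using h1
    · simpa using hc
  · rintro ⟨x, ⟨⟨β, hβ⟩, ⟨u, hu⟩, ⟨w, hw⟩, ⟨c, hc⟩⟩, ⟨m, hm, hmQ⟩, ⟨a, ha, ha'⟩, h1, h2, h3⟩
    have e0 := ha 0
    have e1 := ha 1
    have e2 := ha 2
    have f0 : x 4 = a 0 := e0.2
    have f1 : x 5 = a 1 := e1.2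
    have f2 : x 7 = a 2 := e2.2
    refine ⟨β, u, w, c, a 0, a 1, m, a 2, ⟨e0.1, e1.1, e2.1, ha'⟩, ⟨?_, ?_⟩, hmQ, ?_⟩
    · rw [← f0, ← hβ]
      exact h1
    · have h4 : (u : ℚ) * β + w * (a 0 : ℚ) = 1 := by
        rw [← hu, ← hβ, ← hw, ← f0]
        exact h2
      exact_mod_cast h4
    · rw [← f2, ← hm, ← hc]
      exact h3

end Pool.Agent.TH255.PS
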