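import Pool.Agent.TH255.HC.Loc
import Mathlib.NumberTheory.SumTwoSquares

/-!
# Sizes of polar parts
-/

set_option autoImplicit false

namespace Pool.Agent.TH255.PS

open Pool.Agent.TH255.HC

open scoped Classical in
/-- the part of the denominator of `x` composed of prime numbers in `Q` -/
noncomputable def DQ (Q : Set ℕ) (x : ℚ) : ℕ :=
  ∏ p ∈ x.den.primeFactors with p ∈ Q, p ^ x.den.factorization p

/-- a sum of two coprime squares has only the prime factor `2`, once, besides those congruent to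
`1` modulo `4` -/
lemma den_le (Q : Set ℕ) (hQ : ∀ p : ℕ, p.Prime → p % 4 = 1 → p ∈ Q) (x : ℚ) :
    DQ Q (1 / (x ^ 2 + 1)) ≤ (1 / (x ^ 2 + 1)).den ∧
      (1 / (x ^ 2 + 1)).den ≤ 2 * DQ Q (1 / (x ^ 2 + 1)) := by
  classical
  set z : ℚ := 1 / (x ^ 2 + 1) with hz
  have hN : z.den = x.num.natAbs ^ 2 + x.den ^ 2 := den_inv_sq x
  set N := z.den with hNd
  have hN0 : N ≠ 0 := z.den_ne_zero
  have hcop : Nat.Coprime x.num.natAbs x.den := x.reduced
  have hsq : IsSquare (-1 : ZMod N) := ZMod.isSquare_neg_one_of_eq_sq_add_sq_of_coprime hN hcop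
  have hsplit : N = (∏ p ∈ N.primeFactors with p ∈ Q, p ^ N.factorization p) *
      ∏ p ∈ N.primeFactors with p ∉ Q, p ^ N.factorization p := by
    rw [Finset.prod_filter_mul_prod_filter_not]
    exact (Nat.factorization_prod_pow_eq_self hN0).symm
  have h4 : ¬ 4 ∣ N := by
    intro h
    rw [hN] at h
    have hs : ∀ n : ℕ, n ^ 2 % 4 = (n % 4) ^ 2 % 4 := fun n => by rw [Nat.pow_mod]
    have h1 := hs x.num.natAbs
    have h2 := hs x.den
    have h3 : (x.num.natAbs ^ 2 + x.den ^ 2) % 4 = 0 := Nat.mod_eq_zero_of_dvd h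
    have h5 : x.num.natAbs % 2 = 0 ∧ x.den % 2 = 0 := by
      have q1 : x.num.natAbs % 4 < 4 := Nat.mod_lt _ (by norm_num)
      have q2 : x.den % 4 < 4 := Nat.mod_lt _ (by norm_num)
      interval_cases hx1 : x.num.natAbs % 4 <;> interval_cases hx2 : x.den % 4 <;> omega
    have h6 : 2 ∣ Nat.gcd x.num.natAbs x.den :=
      Nat.dvd_gcd (Nat.dvd_of_mod_eq_zero h5.1) (Nat.dvd_of_mod_eq_zero h5.2)
    rw [hcop.gcd_eq_one] at h6
    omega
  have hsub : ∀ p ∈ N.primeFactors.filter (fun p => p ∉ Q), p = 2 := by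
    intro p hp
    rw [Finset.mem_filter, Nat.mem_primeFactors] at hp
    obtain ⟨⟨hp1, hp2, -⟩, hpQ⟩ := hp
    have h5 : p % 4 ≠ 3 := Nat.mod_four_ne_three_of_mem_primeFactors_of_isSquare_neg_one
      (Nat.mem_primeFactors.mpr ⟨hp1, hp2, hN0⟩) hsq
    rcases hp1.eq_two_or_odd with h | h
    · exact h
    · exfalso
      apply hpQ
      apply hQ p hp1
      omega
  have hle2 : ∏ p ∈ N.primeFactors with p ∉ Q, p ^ N.factorization p ≤ 2 := by
    have hss : N.primeFactors.filter (fun p => p ∉ Q) ⊆ {2} := fun p hp => by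
      rw [Finset.mem_singleton]
      exact hsub p hp
    have h5 : ∏ p ∈ N.primeFactors with p ∉ Q, p ^ N.factorization p ≤
        ∏ p ∈ ({2} : Finset ℕ), p ^ N.factorization p := by
      refine Finset.prod_le_prod_of_subset_of_one_le' hss fun p hp _ => ?_
      rw [Finset.mem_singleton] at hp
      rw [hp]
      exact Nat.one_le_two_pow
    refine h5.trans ?_
    rw [Finset.prod_singleton]
    have h6 : N.factorization 2 ≤ 1 := by
      by_contra hcon
      apply h4
      have h7 : 2 ^ 2 ∣ N := (Nat.prime_two.pow_dvd_iff_le_factorization hN0).mpr (by omega)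
      exact h7
    calc 2 ^ N.factorization 2 ≤ 2 ^ 1 := Nat.pow_le_pow_right (by norm_num) h6
      _ = 2 := by norm_num
  have hpos : 0 < ∏ p ∈ N.primeFactors with p ∉ Q, p ^ N.factorization p :=
    Finset.prod_pos fun p hp => pow_pos (by
      rw [hsub p hp]
      norm_num) _
  have hDQ : DQ Q z = ∏ p ∈ N.primeFactors with p ∈ Q, p ^ N.factorization p := by
    unfold DQ
    refine Finset.prod_congr ?_ fun _ _ => rfl
    ext p
    simp only [Finset.mem_filter, hNd]
  rw [hDQ]
  constructor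
  · conv_rhs => rw [hsplit]
    exact Nat.le_mul_of_pos_right _ hpos
  · conv_lhs => rw [hsplit]
    rw [mul_comm]
    exact Nat.mul_le_mul_right _ hle2

/-- a coarse comparison of a function of the size of the square of the height -/
lemma btw_gen (C : ℕ) (A δ : ℝ) (hδ : δ < 1 / 2) (D : ℚ → ℕ) (K : ℕ) (hK : 1 ≤ K)
    (hKH : ∀ x, D x ≤ K * H x ^ 2 ∧ H x ^ 2 ≤ K * D x) : ∃ τ : Tol,
    ∀ R : ℚ → ℚ → Prop, (∀ x y, C * D x ≤ D y → R x y) →
      (∀ x y, R x y → Real.log (D x) ≤ Real.log (D y) + A * (1 + Real.log (D y)) ^ δ) →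
      Btw τ R := by
  have he : max δ 0 < 1 / 2 := max_lt hδ (by norm_num)
  refine ⟨⟨C * K ^ 2 + 1, Real.log K + |A| * (2 + Real.log K), max δ 0, he⟩, fun R h1 h2 => ?_⟩
  have hKr : (1 : ℝ) ≤ K := by exact_mod_cast hK
  have hlK : 0 ≤ Real.log K := Real.log_nonneg hKr
  have hD1 : ∀ x, 1 ≤ D x := by
    intro x
    have h3 := (hKH x).2
    have h4 : 1 ≤ H x ^ 2 := Nat.one_le_pow _ _ (H_pos x)
    by_contra hcon
    have h5 : D x = 0 := by omega
    rw [h5, mul_zero] at h3
    omega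
  constructor
  · intro x y hxy
    apply h1 _ _
    have e1 := (hKH x).1
    have e2 := (hKH y).2
    have e3 : C * K ^ 2 * H x ^ 2 ≤ H y ^ 2 := by
      calc C * K ^ 2 * H x ^ 2 ≤ (C * K ^ 2 + 1) ^ 2 * H x ^ 2 := by
            apply Nat.mul_le_mul_right
            nlinarith
        _ = ((C * K ^ 2 + 1) * H x) ^ 2 := by ring
        _ ≤ H y ^ 2 := Nat.pow_le_pow_left hxy 2
    have e4 : K * (C * D x) ≤ K * D y := by
      calc K * (C * D x) ≤ K * (C * (K * H x ^ 2)) :=
            Nat.mul_le_mul_left _ (Nat.mul_le_mul_left _ e1)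
        _ = C * K ^ 2 * H x ^ 2 := by ring
        _ ≤ _ := e3.trans e2
    exact Nat.le_of_mul_le_mul_left e4 hK
  · intro x y hxy
    have h3 := h2 _ _ hxy
    have hx1 : (1 : ℝ) ≤ H x := by exact_mod_cast H_ge_one x
    have hy1 : (1 : ℝ) ≤ H y := by exact_mod_cast H_ge_one y
    have hfx1 : (1 : ℝ) ≤ D x := by exact_mod_cast hD1 _
    have hfy1 : (1 : ℝ) ≤ D y := by exact_mod_cast hD1 _
    have e1 : 2 * Real.log (H x) ≤ Real.log K + Real.log (D x) := by
      rw [← Real.log_mul (by positivity) (by positivity)]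
      have : (2 : ℝ) * Real.log (H x) = Real.log ((H x : ℝ) ^ 2) := by
        rw [Real.log_pow]; norm_num
      rw [this]
      apply Real.log_le_log (by positivity)
      exact_mod_cast (hKH x).2
    have e2 : Real.log (D y) ≤ Real.log K + 2 * Real.log (H y) := by
      have : (2 : ℝ) * Real.log (H y) = Real.log ((H y : ℝ) ^ 2) := by
        rw [Real.log_pow]; norm_num
      rw [this, ← Real.log_mul (by positivity) (by positivity)]
      apply Real.log_le_log (by positivity)
      exact_mod_cast (hKH y).1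
    set t := Real.log (H y) with ht
    set t' := Real.log (D y) with ht'
    have ht0 : 0 ≤ t := Real.log_nonneg hy1
    have ht'0 : 0 ≤ t' := Real.log_nonneg hfy1
    set ε := max δ 0 with hε
    have hε0 : 0 ≤ ε := le_max_right _ _
    have e3 : (1 + t') ^ δ ≤ (2 + Real.log K) * (1 + t) ^ ε := by
      calc (1 + t') ^ δ ≤ (1 + t') ^ ε :=
            Real.rpow_le_rpow_of_exponent_le (by linarith) (le_max_left _ _)
        _ ≤ ((2 + Real.log K) * (1 + t)) ^ ε := by
            apply Real.rpow_le_rpow (by linarith) _ hε0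
            nlinarith [mul_nonneg hlK ht0]
        _ = (2 + Real.log K) ^ ε * (1 + t) ^ ε := Real.mul_rpow (by linarith) (by linarith)
        _ ≤ (2 + Real.log K) * (1 + t) ^ ε := by
            apply mul_le_mul_of_nonneg_right _ (Real.rpow_nonneg (by linarith) _)
            have := Real.rpow_le_rpow_of_exponent_le (show (1 : ℝ) ≤ 2 + Real.log K by linarith)
              (show ε ≤ 1 by linarith)
            rwa [Real.rpow_one] at this
    have e4 : A * (1 + t') ^ δ ≤ |A| * ((2 + Real.log K) * (1 + t) ^ ε) :=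
      (mul_le_mul_of_nonneg_right (le_abs_self A) (Real.rpow_nonneg (by linarith) _)).trans
        (mul_le_mul_of_nonneg_left e3 (abs_nonneg _))
    have e5 : (1 : ℝ) ≤ (1 + t) ^ ε := Real.one_le_rpow (by linarith) hε0
    have e6 : Real.log K ≤ Real.log K * (1 + t) ^ ε := by nlinarith
    have e7 : 0 ≤ |A| * ((2 + Real.log K) * (1 + t) ^ ε) := by
      have : 0 ≤ 2 + Real.log K := by linarith
      positivity
    change Real.log (H x) ≤ t + (Real.log K + |A| * (2 + Real.log K)) * (1 + t) ^ ε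
    have e8 : (Real.log K + |A| * (2 + Real.log K)) * (1 + t) ^ ε =
        Real.log K * (1 + t) ^ ε + |A| * ((2 + Real.log K) * (1 + t) ^ ε) := by ring
    rw [e8]
    linarith

/-- a coarse comparison of the sizes of polar parts gives a coarse comparison of heights -/
lemma btw_size (C : ℕ) (A δ : ℝ) (hδ : δ < 1 / 2) (Q : Set ℕ)
    (hQ : ∀ p : ℕ, p.Prime → p % 4 = 1 → p ∈ Q) : ∃ τ : Tol,
    ∀ S : ℚ → ℚ → Prop, (∀ x y, C * DQ Q x ≤ DQ Q y → S x y) →
      (∀ x y, S x y → Real.log (DQ Q x) ≤ Real.log (DQ Q y) +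
        A * (1 + Real.log (DQ Q y)) ^ δ) →
      Btw τ (fun x y => S (1 / (x ^ 2 + 1)) (1 / (y ^ 2 + 1))) := by
  obtain ⟨τ, h⟩ := btw_gen C A δ hδ (fun x => DQ Q (1 / (x ^ 2 + 1))) 2 (by norm_num) (by
    intro x
    obtain ⟨h1, h2⟩ := den_le Q hQ x
    obtain ⟨h3, h4⟩ := sq_bounds x
    rw [den_inv_sq] at h1 h2
    exact ⟨h1.trans h4, h3.trans h2⟩)
  exact ⟨τ, fun S h1 h2 => h _ (fun x y hxy => h1 _ _ hxy) (fun x y hxy => h2 _ _ hxy)⟩

end Pool.Agent.TH255.PS
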