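import Pool.Agent.TH255.PS.Dh
import Pool.Agent.TH255.PS.Size

/-!
# Definitions with a comparison of the sizes of polar parts
-/

set_option autoImplicit false

namespace Pool.Agent.TH255.PS

open Pool.Agent.TH255.HC MvPolynomial

/-- sums of squares -/
lemma single {τ : Type} (L : List (MvPolynomial τ ℤ)) :
    ∃ G : MvPolynomial τ ℤ, ∀ y : τ → ℚ, aeval y G = 0 ↔ ∀ p ∈ L, aeval y p = 0 := by
  have h : ∃ G : MvPolynomial τ ℤ, ∀ y : τ → ℚ, 0 ≤ (aeval y G : ℚ) ∧
      (aeval y G = 0 ↔ ∀ p ∈ L, aeval y p = 0) := by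
    induction L with
    | nil => exact ⟨0, fun y => by simp⟩
    | cons p L ih =>
      obtain ⟨G, hG⟩ := ih
      refine ⟨p ^ 2 + G, fun y => ?_⟩
      obtain ⟨h1, h2⟩ := hG y
      rw [List.forall_mem_cons, ← h2, map_add, map_pow]
      have h3 : 0 ≤ (aeval y p : ℚ) ^ 2 := sq_nonneg _
      refine ⟨by linarith, fun h => ?_, fun h => by rw [h.1, h.2]; norm_num⟩
      have h4 : (aeval y p : ℚ) ^ 2 = 0 := by linarith
      have h5 : (aeval y G : ℚ) = 0 := by linarith
      exact ⟨pow_eq_zero_iff (by norm_num) |>.mp h4, h5⟩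
  obtain ⟨G, hG⟩ := h
  exact ⟨G, fun y => (hG y).2⟩

/-- the final form: a relation which is definable with a comparison of heights is definable with
every relation which gives such a comparison through `x ↦ 1 / (x² + 1)` -/
theorem final2 {τ : Tol} {P : ℚ → ℚ → Prop} (h : DH τ (fun _ v => P (v 0) (v 1))) :
    ∃ (n : ℕ) (f : MvPolynomial (Fin 2 ⊕ Fin n) ℤ)
      (T : Finset ((Fin 2 ⊕ Fin n) × (Fin 2 ⊕ Fin n))), ∀ S : ℚ → ℚ → Prop,
        Btw τ (fun x y => S (1 / (x ^ 2 + 1)) (1 / (y ^ 2 + 1))) →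
        ∀ a b : ℚ, P a b ↔ ∃ z : Fin n → ℚ, aeval (Sum.elim ![a, b] z) f = 0 ∧
          ∀ s ∈ T, S (Sum.elim ![a, b] z s.1) (Sum.elim ![a, b] z s.2) := by
  classical
  obtain ⟨p, S, hp⟩ := h
  obtain ⟨N, hN, hS⟩ : ∃ N : ℕ, (∀ i ∈ p.vars, i < N) ∧ ∀ s ∈ S, s.1 < N ∧ s.2 < N := by
    refine ⟨p.vars.sup id + (S.map (fun s => s.1 + s.2)).sum + 1, fun i hi => ?_, fun s hs => ?_⟩
    · have : id i ≤ p.vars.sup id := Finset.le_sup hi
      simp only [id] at this
      omega
    · have : s.1 + s.2 ≤ (S.map (fun s => s.1 + s.2)).sum :=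
        List.single_le_sum (fun _ _ => Nat.zero_le _) _ (List.mem_map_of_mem hs)
      omega
  -- variables: `Fin (2 N)`, the first `N` are the old ones, the others `1 / (x² + 1)`
  let g : ℕ → Fin 2 ⊕ Fin (N + N) := fun n => if n = 0 then Sum.inl 0 else
    if n = 2 then Sum.inl 1 else if h : n < N then Sum.inr (Fin.castAdd N ⟨n, h⟩) else Sum.inl 0
  let k : ℕ → Fin 2 ⊕ Fin (N + N) := fun n => if h : n < N then Sum.inr (Fin.natAdd N ⟨n, h⟩)
    else Sum.inl 0
  obtain ⟨f, hf⟩ := single (rename g p ::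
    (List.range N).map (fun n => X (k n) * (X (g n) ^ 2 + 1) - 1))
  have hf' : ∀ y : Fin 2 ⊕ Fin (N + N) → ℚ, aeval y f = 0 ↔ aeval (y ∘ g) p = 0 ∧
      ∀ n < N, y (k n) = 1 / (y (g n) ^ 2 + 1) := by
    intro y
    rw [hf, List.forall_mem_cons, aeval_rename]
    refine and_congr Iff.rfl ?_
    simp only [List.mem_map, List.mem_range, forall_exists_index, and_imp,
      forall_apply_eq_imp_iff₂, map_sub, map_mul, map_add, map_pow, map_one, aeval_X]
    refine forall_congr' fun n => forall_congr' fun _ => ?_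
    have h0 : y (g n) ^ 2 + 1 ≠ 0 := by positivity
    rw [sub_eq_zero, eq_div_iff h0]
  refine ⟨N + N, f, (S.map fun s => (k s.1, k s.2)).toFinset, fun S' hS' a b => ?_⟩
  have hR := hp _ hS'
  constructor
  · intro hab
    set v : ℕ → ℚ := fun m => if m = 0 then a else b with hv
    obtain ⟨u, hu, hu'⟩ := (hR v).1 (by simpa [hv] using hab)
    set z : Fin (N + N) → ℚ := Fin.addCases (fun i => mix v u i)
      (fun i => 1 / (mix v u i ^ 2 + 1)) with hz
    have key : ∀ n, n < N → Sum.elim ![a, b] z (g n) = mix v u n := by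
      intro n hn
      by_cases h0 : n = 0
      · subst h0
        have : mix v u 0 = v 0 := mix_even v u 0
        rw [this]
        simp [g, hv]
      · by_cases h2 : n = 2
        · subst h2
          have : mix v u 2 = v 1 := mix_even v u 1
          rw [this]
          simp [g, hv]
        · have h4 : g n = Sum.inr (Fin.castAdd N ⟨n, hn⟩) := by
            simp only [g]
            rw [if_neg h0, if_neg h2, dif_pos hn]
          rw [h4, Sum.elim_inr]
          exact Fin.addCases_left _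
    have key2 : ∀ n, n < N → Sum.elim ![a, b] z (k n) = 1 / (mix v u n ^ 2 + 1) := by
      intro n hn
      have h4 : k n = Sum.inr (Fin.natAdd N ⟨n, hn⟩) := by
        simp only [k]
        rw [dif_pos hn]
      rw [h4, Sum.elim_inr]
      exact Fin.addCases_right _
    refine ⟨z, (hf' _).mpr ⟨?_, fun n hn => ?_⟩, fun s hs => ?_⟩
    · rw [← hu]
      apply MvPolynomial.eval₂Hom_congr' rfl _ rfl
      intro i hi _
      exact key i (hN i hi)
    · rw [key n hn, key2 n hn]
    · rw [List.mem_toFinset, List.mem_map] at hs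
      obtain ⟨s, hs, rfl⟩ := hs
      simp only
      rw [key2 _ (hS s hs).1, key2 _ (hS s hs).2]
      exact hu' s hs
  · rintro ⟨z, hz, hz'⟩
    obtain ⟨h1, h2⟩ := (hf' _).mp hz
    set w : ℕ → ℚ := fun n => Sum.elim ![a, b] z (g n) with hw
    have hmix : mix (fun n => w (2 * n)) (fun n => w (2 * n + 1)) = w := by
      funext n
      obtain ⟨m, rfl | rfl⟩ : ∃ m, n = 2 * m ∨ n = 2 * m + 1 := ⟨n / 2, by omega⟩
      · rw [mix_even]
      · rw [mix_odd]
    have h3 := (hR (fun n => w (2 * n))).2 ⟨fun n => w (2 * n + 1), by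
      rw [hmix]
      exact h1, fun s hs => by
        rw [hmix]
        have h4 := hz' (k s.1, k s.2) (List.mem_toFinset.2
          (List.mem_map_of_mem (f := fun s : ℕ × ℕ => (k s.1, k s.2)) hs))
        rw [h2 _ (hS s hs).1, h2 _ (hS s hs).2] at h4
        exact h4⟩
    have e0 : w (2 * 0) = a := by simp [hw, g]
    have e1 : w (2 * 1) = b := by simp [hw, g]
    simp only at h3
    rwa [e0, e1] at h3

end Pool.Agent.TH255.PS
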